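import Mathlib
import Pool.Agent.R928.GrDefs
import Pool.Agent.R928.GrSplit

/-!
# MP_da5d07_ag: the Frobenius push-forward of the twisted tautological sequence on `Gr(2, n)` splits

For a field `k` of characteristic `p > 0` and `n ≥ 5` with `p ∤ n - 4` the sequence
`0 → F^e_*(R ⊗ O(-2)) → F^e_*(V ⊗ O(-2)) → F^e_*(Q ⊗ O(-2)) → 0` on `Gr(2, n)` splits for every `e ≥ 1`.
-/

set_option autoImplicit false

namespace Pool.Agent.Results.MP_da5d07_ag.Splits

open Pool.Agent.R928.Gr

theorem result (p : ℕ) (_hp : p.Prime) (k : Type*) [Field k] [CharP k p] (n : ℕ) (hn : 5 ≤ n)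
    (h : ¬ p ∣ n - 4) (e : ℕ) (he : 1 ≤ e) : FrobeniusPushforwardSplits p k n (-2) e := by
  refine splits p (by omega) (-2) ?_ e he
  intro h0
  apply h
  have h1 : ((n - 4 : ℕ) : k) = 0 := by
    rw [← h0]
    push_cast [Nat.cast_sub (show 4 ≤ n by omega)]
    ring
  exact (CharP.cast_eq_zero_iff k p _).1 h1

end Pool.Agent.Results.MP_da5d07_ag.Splits
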